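import Pool.Agent.Helper98.RS.Defs

/-!
# RS: kernel forms of the bounds on the derived length, and sections as modules
-/

set_option autoImplicit false

open scoped Pointwise

namespace Pool.Agent.Helper47.RS

open Pool.Agent.Helper98.RS

/-- Kernel form of `LinDL`. -/
theorem lin_ker {P : ∀ (H : Type) [Group H], Prop} (hP : Cls P) {p a m : ℕ} (hm : LinDL P p a m)
    [Fact p.Prime] (H : Type) [Group H] [Finite H] (V : Type) [AddCommGroup V] [Module (ZMod p) V]
    [Finite V] (ρ : Representation (ZMod p) H V) (hH : P H) (hcr : CR ρ)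
    (hfr : Module.finrank (ZMod p) V ≤ a) (g : H) (hg : g ∈ derivedSeries H m) : ρ g = 1 := by
  classical
  let f : H →* (Module.End (ZMod p) V)ˣ := MonoidHom.toHomUnits ρ
  have hfv : ∀ h, ((f h : (Module.End (ZMod p) V)ˣ) : Module.End (ZMod p) V) = ρ h := fun h => rfl
  let τ : Representation (ZMod p) f.range V :=
    (Units.coeHom (Module.End (ZMod p) V)).comp f.range.subtype
  have hτ : ∀ h : H, τ (f.rangeRestrict h) = ρ h := fun h => rfl
  have hinj : Function.Injective τ := by
    intro x y hxy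
    apply Subtype.ext
    exact Units.ext hxy
  have hcr' : CR τ := by
    intro W hW
    obtain ⟨W', hW', hc⟩ := hcr W (fun h v hv => by
      have := hW (f.rangeRestrict h) v hv
      rwa [hτ] at this)
    refine ⟨W', ?_, hc⟩
    rintro h v hv
    obtain ⟨h', rfl⟩ := f.rangeRestrict_surjective h
    rw [hτ]
    exact hW' h' v hv
  have : Finite f.range := Finite.of_surjective _ f.rangeRestrict_surjective
  have hd := hm f.range V τ (hP.of_surj f.rangeRestrict f.rangeRestrict_surjective hH) hinj hcr' hfr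
  have h1 : f.rangeRestrict g ∈ derivedSeries f.range m :=
    (map_derivedSeries_le_derivedSeries f.rangeRestrict m) (Subgroup.mem_map_of_mem _ hg)
  rw [hd, Subgroup.mem_bot] at h1
  rw [← hτ g, h1, map_one]

/-- Kernel form of `PermDL`. -/
theorem perm_ker {P : ∀ (H : Type) [Group H], Prop} (hP : Cls P) {n m : ℕ} (hm : PermDL P n m)
    (H : Type) [Group H] [Finite H] (X : Type) [Finite X] [MulAction H X] (hH : P H)
    (hc : Nat.card X ≤ n) (g : H) (hg : g ∈ derivedSeries H m) (x : X) : g • x = x := by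
  classical
  let f : H →* Equiv.Perm X := MulAction.toPermHom H X
  have hd := hm f.range X (hP.of_surj f.rangeRestrict f.rangeRestrict_surjective hH)
    (by
      rintro ⟨h, hh⟩ hx
      apply Subtype.ext
      ext y
      exact hx y) hc
  have h1 : f.rangeRestrict g ∈ derivedSeries f.range m :=
    (map_derivedSeries_le_derivedSeries f.rangeRestrict m) (Subgroup.mem_map_of_mem _ hg)
  rw [hd, Subgroup.mem_bot] at h1
  have h2 := congrArg (fun z : f.range => (z : Equiv.Perm X) x) h1
  exact h2

theorem rep_of_comm_aux {H : Type} [Group H] (V : Type) [AddCommGroup V] (r : ℕ)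
    [Module (ZMod r) V] (φ : H → V →+ V) (h1 : ∀ x, φ 1 x = x)
    (hmul : ∀ g h x, φ (g * h) x = φ g (φ h x)) :
    ∃ (ρ : Representation (ZMod r) H V), ∀ h x, ρ h x = φ h x := by
  let T : H → (V →ₗ[ZMod r] V) := fun h => (φ h).toZModLinearMap r
  refine ⟨{ toFun := T, map_one' := ?_, map_mul' := ?_ }, fun h x => rfl⟩
  · apply LinearMap.ext
    intro v
    exact h1 v
  · intro g h
    apply LinearMap.ext
    intro v
    exact hmul g h v

/-- An elementary abelian group with an action as a module with a representation. -/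
theorem rep_of_comm {H : Type} [Group H] (Q : Type) [CommGroup Q] (r : ℕ)
    (hr : ∀ x : Q, x ^ r = 1) (φ : H → Q →* Q) (h1 : ∀ x, φ 1 x = x)
    (hmul : ∀ g h x, φ (g * h) x = φ g (φ h x)) :
    ∃ (V : Type) (_ : AddCommGroup V) (_ : Module (ZMod r) V) (ρ : Representation (ZMod r) H V)
      (e : Q ≃ V), (∀ x y, e (x * y) = e x + e y) ∧ ∀ h x, ρ h (e x) = e (φ h x) := by
  have hr' : ∀ v : Additive Q, r • v = 0 := fun v => hr (Additive.toMul v)
  let I : Module (ZMod r) (Additive Q) := AddCommGroup.zmodModule hr'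
  obtain ⟨ρ, hρ⟩ := @rep_of_comm_aux H _ (Additive Q) _ r I (fun h => MonoidHom.toAdditive (φ h))
    (fun x => congrArg Additive.ofMul (h1 (Additive.toMul x)))
    (fun g h x => congrArg Additive.ofMul (hmul g h (Additive.toMul x)))
  exact ⟨Additive Q, inferInstance, I, ρ, Additive.ofMul, fun x y => rfl, fun h x => hρ h _⟩

/-- An elementary abelian section as a module, with the action by conjugation. -/
theorem sec_rep {H : Type} [Group H] (N M : Subgroup H) [N.Normal] [M.Normal]
    (r : ℕ) (hcomm : ∀ x ∈ M, ∀ y ∈ M, x * y * x⁻¹ * y⁻¹ ∈ N) (hexp : ∀ x ∈ M, x ^ r ∈ N) :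
    ∃ (V : Type) (_ : AddCommGroup V) (_ : Module (ZMod r) V) (ρ : Representation (ZMod r) H V)
      (q : H → V), (∀ x ∈ M, ∀ y ∈ M, q (x * y) = q x + q y) ∧ (∀ x ∈ M, q x = 0 ↔ x ∈ N) ∧
      (∀ v, ∃ x ∈ M, q x = v) ∧ (∀ g, ∀ x ∈ M, q (g * x * g⁻¹) = ρ g (q x)) ∧
      Nat.card V = N.relIndex M := by
  classical
  have hmul : ∀ a b : M ⧸ N.subgroupOf M, a * b = b * a := by
    intro a b
    induction a using QuotientGroup.induction_on with
    | H a =>
    induction b using QuotientGroup.induction_on with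
    | H b =>
      rw [← QuotientGroup.mk_mul, ← QuotientGroup.mk_mul, QuotientGroup.eq]
      rw [Subgroup.mem_subgroupOf]
      have h1 := hcomm (b : H)⁻¹ (M.inv_mem b.2) (a : H)⁻¹ (M.inv_mem a.2)
      simpa [mul_assoc] using h1
  let _ : CommGroup (M ⧸ N.subgroupOf M) :=
    { (inferInstance : Group (M ⧸ N.subgroupOf M)) with mul_comm := hmul }
  have hr : ∀ v : M ⧸ N.subgroupOf M, v ^ r = 1 := by
    intro w
    induction w using QuotientGroup.induction_on with
    | H a =>
      rw [← QuotientGroup.mk_pow, QuotientGroup.eq_one_iff, Subgroup.mem_subgroupOf]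
      simpa using hexp a a.2
  let φ : H → ((M ⧸ N.subgroupOf M) →* (M ⧸ N.subgroupOf M)) := fun h =>
    QuotientGroup.map _ _ (MulAut.conjNormal h : MulAut M).toMonoidHom (by
      intro a ha
      rw [Subgroup.mem_comap, Subgroup.mem_subgroupOf]
      rw [Subgroup.mem_subgroupOf] at ha
      exact Subgroup.Normal.conj_mem inferInstance _ ha h)
  have hφ : ∀ (h : H) (a : M), φ h (QuotientGroup.mk a) =
      QuotientGroup.mk (MulAut.conjNormal h a) := fun h a => rfl
  obtain ⟨V, i1, i2, ρ, e, he, hρ⟩ := rep_of_comm (M ⧸ N.subgroupOf M) r hr φ (by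
    intro w
    induction w using QuotientGroup.induction_on with
    | H a => rw [hφ, map_one]; rfl) (by
    intro g h w
    induction w using QuotientGroup.induction_on with
    | H a => rw [hφ, hφ, hφ, map_mul]; rfl)
  have he0 : e 1 = 0 := by
    have := he 1 1
    rw [mul_one] at this
    simpa using this
  let q : H → V := fun x => if hx : x ∈ M then e (QuotientGroup.mk ⟨x, hx⟩) else 0
  have hq : ∀ x (hx : x ∈ M), q x = e (QuotientGroup.mk ⟨x, hx⟩) := by
    intro x hx
    simp only [q, dif_pos hx]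
  refine ⟨V, i1, i2, ρ, q, ?_, ?_, ?_, ?_, ?_⟩
  · intro x hx y hy
    rw [hq _ hx, hq _ hy, hq _ (M.mul_mem hx hy), ← he]
    rfl
  · intro x hx
    rw [hq _ hx, ← he0, e.injective.eq_iff, QuotientGroup.eq_one_iff, Subgroup.mem_subgroupOf]
  · intro v
    obtain ⟨w, rfl⟩ := e.surjective v
    obtain ⟨a, rfl⟩ := QuotientGroup.mk_surjective w
    exact ⟨a, a.2, hq _ a.2⟩
  · intro g x hx
    rw [hq _ hx, hq _ (Subgroup.Normal.conj_mem inferInstance x hx g), hρ, hφ]
    rfl
  · rw [← Nat.card_congr e]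
    rfl

end Pool.Agent.Helper47.RS
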