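import Pool.Agent.Helper47.RS.Orbits
import Pool.Agent.Helper47.RS.LinKer
import Pool.Agent.Helper98.RS.A2

/-!
# RS: transitive permutation groups, one orbit of a minimal normal subgroup
-/

set_option autoImplicit false

open scoped Pointwise

namespace Pool.Agent.Helper47.RS

open Pool.Agent.Helper98.RS

open scoped commutatorElement

/-- Quotient representation. -/
theorem quot_rep {k : Type} [Field k] {H : Type} [Group H] {V : Type} [AddCommGroup V] [Module k V]
    (ρ : Representation k H V) (W : Submodule k V) (hW : ∀ h, ∀ v ∈ W, ρ h v ∈ W) :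
    ∃ σ : Representation k H (V ⧸ W), ∀ h v, σ h (W.mkQ v) = W.mkQ (ρ h v) := by
  let T : H → ((V ⧸ W) →ₗ[k] (V ⧸ W)) := fun h => W.mapQ W (ρ h) (fun v hv => hW h v hv)
  have hT : ∀ h v, T h (W.mkQ v) = W.mkQ (ρ h v) := fun h v => rfl
  refine ⟨{ toFun := T, map_one' := ?_, map_mul' := ?_ }, hT⟩
  · apply LinearMap.ext
    intro u
    obtain ⟨v, rfl⟩ := W.mkQ_surjective u
    rw [hT, map_one]
    rfl
  · intro g h
    apply LinearMap.ext
    intro u
    obtain ⟨v, rfl⟩ := W.mkQ_surjective u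
    rw [hT, map_mul]
    rfl

theorem one_orbit {P : ∀ (H : Type) [Group H], Prop} (hP : Cls P) {H : Type} [Group H] [Finite H]
    {X : Type} [MulAction H X] (hH : P H) (A : Subgroup H) [A.Normal] (hA : A ≠ ⊥)
    (r : ℕ) [Fact r.Prime] (hc : ∀ x ∈ A, ∀ y ∈ A, x * y = y * x) (hexp : ∀ x ∈ A, x ^ r = 1)
    (hmin : ∀ B : Subgroup H, B.Normal → B ≤ A → B = ⊥ ∨ B = A) (a m : ℕ) (x : X)
    (hx : Nat.card (MulAction.orbit A x) = r ^ a) (hm : LinDL P r a m)
    (k : Kor A X) (hk : k ∈ derivedSeries (Kor A X) m) :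
    ∃ b ∈ A, ∀ y ∈ MulAction.orbit A x, (k : H) • y = b • y := by
  classical
  obtain ⟨V, i1, i2, ρ, q, hadd, h0, hsurj, hconj, hcard⟩ := sec_rep (⊥ : Subgroup H) A r
    (by
      intro x hx y hy
      rw [Subgroup.mem_bot, hc x hx y hy]
      group)
    (by
      intro x hx
      rw [Subgroup.mem_bot]
      exact hexp x hx)
  have q1 : q 1 = 0 := (h0 1 A.one_mem).mpr (Subgroup.mem_bot.mpr rfl)
  have qinv : ∀ b ∈ A, q b⁻¹ = - q b := by
    intro b hb
    have h1 := hadd b hb b⁻¹ (A.inv_mem hb)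
    rw [mul_inv_cancel, q1] at h1
    exact (neg_eq_of_add_eq_zero_right h1.symm).symm
  have qinj : ∀ b ∈ A, ∀ c ∈ A, q b = q c → b = c := by
    intro b hb c hcA h
    have h1 := hadd b hb c⁻¹ (A.inv_mem hcA)
    rw [qinv c hcA, h, add_neg_cancel, h0 _ (A.mul_mem hb (A.inv_mem hcA)), Subgroup.mem_bot] at h1
    exact mul_inv_eq_one.mp h1
  have hfV : Finite V := by
    let f : A → V := fun b => q b
    refine Finite.of_surjective f ?_
    intro v
    obtain ⟨b, hb, hbv⟩ := hsurj v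
    exact ⟨⟨b, hb⟩, hbv⟩
  -- irreducibility
  have hirr : Irr ρ := by
    constructor
    · obtain ⟨b, hb, hb1⟩ := (Subgroup.bot_or_exists_ne_one A).resolve_left hA
      refine ⟨⟨q b, 0, ?_⟩⟩
      intro h
      exact hb1 (Subgroup.mem_bot.mp ((h0 b hb).mp h))
    · intro W hW
      let B : Subgroup H :=
        { carrier := {b | b ∈ A ∧ q b ∈ W}
          one_mem' := ⟨A.one_mem, by rw [q1]; exact W.zero_mem⟩
          mul_mem' := by
            rintro b c ⟨hb, hb'⟩ ⟨hc, hc'⟩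
            exact ⟨A.mul_mem hb hc, by rw [hadd b hb c hc]; exact W.add_mem hb' hc'⟩
          inv_mem' := by
            rintro b ⟨hb, hb'⟩
            exact ⟨A.inv_mem hb, by rw [qinv b hb]; exact W.neg_mem hb'⟩ }
      have hB : B.Normal := by
        constructor
        rintro b ⟨hb, hb'⟩ g
        exact ⟨Subgroup.Normal.conj_mem inferInstance b hb g, by
          rw [hconj g b hb]
          exact hW g _ hb'⟩
      rcases hmin B hB (fun b hb => hb.1) with h | h
      · left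
        rw [Submodule.eq_bot_iff]
        intro v hv
        obtain ⟨b, hb, rfl⟩ := hsurj v
        have h2 : b ∈ B := ⟨hb, hv⟩
        rw [h, Subgroup.mem_bot] at h2
        rw [h2, q1]
      · right
        rw [Submodule.eq_top_iff']
        intro v
        obtain ⟨b, hb, rfl⟩ := hsurj v
        have h2 : b ∈ B := by rw [h]; exact hb
        exact h2.2
  have hcr : CR ρ := cr_of_irr ρ hirr
  have hfd : FiniteDimensional (ZMod r) V := Module.Finite.of_finite
  have hcrK : CR (resrep ρ (Kor A X)) := cr_restrict ρ hcr (Kor A X)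
  -- the stabiliser as a submodule
  have hfix : ∀ b ∈ A, b • x = x → ∀ y ∈ MulAction.orbit A x, b • y = y := by
    rintro b hb hbx y ⟨⟨c, hcA⟩, rfl⟩
    change b • c • x = c • x
    rw [← mul_smul, hc b hb c hcA, mul_smul, hbx]
  let W0 : AddSubgroup V :=
    { carrier := {v | ∃ b ∈ A, q b = v ∧ b • x = x}
      zero_mem' := ⟨1, A.one_mem, q1, one_smul _ _⟩
      add_mem' := by
        rintro v w ⟨b, hb, rfl, hbx⟩ ⟨c, hcA, rfl, hcx⟩
        exact ⟨b * c, A.mul_mem hb hcA, hadd b hb c hcA, by rw [mul_smul, hcx, hbx]⟩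
      neg_mem' := by
        rintro v ⟨b, hb, rfl, hbx⟩
        exact ⟨b⁻¹, A.inv_mem hb, qinv b hb, by rw [inv_smul_eq_iff, hbx]⟩ }
  let W : Submodule (ZMod r) V := AddSubgroup.toZModSubmodule r W0
  have hWmem : ∀ b ∈ A, q b ∈ W ↔ b • x = x := by
    intro b hb
    constructor
    · rintro ⟨c, hcA, hcb, hcx⟩
      rw [← qinj c hcA b hb hcb]
      exact hcx
    · intro h
      exact ⟨b, hb, rfl, h⟩
  have hWinv : ∀ h : Kor A X, ∀ v ∈ W, resrep ρ (Kor A X) h v ∈ W := by
    rintro ⟨h, hh⟩ v ⟨b, hb, rfl, hbx⟩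
    change ρ h (q b) ∈ W
    rw [← hconj h b hb, hWmem _ (Subgroup.Normal.conj_mem inferInstance b hb h)]
    have h1 : h⁻¹ • x ∈ MulAction.orbit A x := (Kor A X).inv_mem hh x
    rw [mul_smul, mul_smul, hfix b hb hbx _ h1, smul_inv_smul]
  obtain ⟨σ, hσ⟩ := quot_rep (resrep ρ (Kor A X)) W hWinv
  have hcrσ : CR σ := cr_map (resrep ρ (Kor A X)) hcrK σ W.mkQ W.mkQ_surjective
    (fun h v => (hσ h v).symm)
  have hfU : Finite (V ⧸ W) := Finite.of_surjective _ W.mkQ_surjective
  have heq : ∀ b ∈ A, ∀ c ∈ A, W.mkQ (q b) = W.mkQ (q c) ↔ b • x = c • x := by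
    intro b hb c hcA
    rw [Submodule.mkQ_apply, Submodule.mkQ_apply, Submodule.Quotient.eq]
    have h1 : q b - q c = q (b * c⁻¹) := by
      rw [hadd b hb _ (A.inv_mem hcA), qinv c hcA, sub_eq_add_neg]
    rw [h1, hWmem _ (A.mul_mem hb (A.inv_mem hcA)), hc b hb _ (A.inv_mem hcA), mul_smul,
      inv_smul_eq_iff]
  have hcardU : Nat.card (V ⧸ W) = r ^ a := by
    rw [← hx]
    let g : MulAction.orbit A x → V ⧸ W := fun y => W.mkQ (q (Classical.choose y.2 : A))
    have hg : ∀ y : MulAction.orbit A x, ∃ b ∈ A, b • x = y ∧ g y = W.mkQ (q b) := by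
      intro y
      exact ⟨(Classical.choose y.2 : A), (Classical.choose y.2).2, Classical.choose_spec y.2, rfl⟩
    refine (Nat.card_congr (Equiv.ofBijective g ⟨?_, ?_⟩)).symm
    · intro y z hyz
      obtain ⟨b, hb, hby, hgb⟩ := hg y
      obtain ⟨c, hcA, hcz, hgc⟩ := hg z
      rw [hgb, hgc, heq b hb c hcA] at hyz
      apply Subtype.ext
      rw [← hby, ← hcz, hyz]
    · intro u
      obtain ⟨v, rfl⟩ := W.mkQ_surjective u
      obtain ⟨c, hcA, rfl⟩ := hsurj v
      obtain ⟨b, hb, hby, hgb⟩ := hg ⟨c • x, ⟨⟨c, hcA⟩, rfl⟩⟩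
      refine ⟨⟨c • x, ⟨⟨c, hcA⟩, rfl⟩⟩, ?_⟩
      rw [hgb, heq b hb c hcA]
      exact hby
  have hfr : Module.finrank (ZMod r) (V ⧸ W) ≤ a := by
    have h1 := Module.natCard_eq_pow_finrank (K := ZMod r) (V := V ⧸ W)
    rw [hcardU, Nat.card_zmod] at h1
    exact (Nat.pow_right_injective (Fact.out : r.Prime).two_le h1).ge
  have hfin := lin_ker hP hm (Kor A X) (V ⧸ W) σ
    (hP.of_inj (Kor A X).subtype (Kor A X).subtype_injective hH) hcrσ hfr k hk
  obtain ⟨⟨b, hb⟩, hbx⟩ := k.2 x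
  change b • x = (k : H) • x at hbx
  refine ⟨b, hb, ?_⟩
  rintro y ⟨⟨c, hcA⟩, rfl⟩
  change (k : H) • c • x = b • c • x
  have hcn : (k : H) * c * (k : H)⁻¹ ∈ A := Subgroup.Normal.conj_mem inferInstance c hcA _
  have h1 : ((k : H) * c * (k : H)⁻¹) • x = c • x := by
    rw [← heq _ hcn c hcA, hconj _ c hcA]
    have h2 := hσ k (q c)
    rw [hfin] at h2
    exact h2.symm
  have h3 : (k : H) • c • x = ((k : H) * c * (k : H)⁻¹) • (k : H) • x := by
    rw [← mul_smul, ← mul_smul]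
    congr 1
    group
  rw [h3, ← hbx, ← mul_smul, hc _ hcn b hb, mul_smul, h1]

/-- The recursion for transitive permutation groups. -/
theorem perm_step' {P : ∀ (H : Type) [Group H], Prop} (hP : Cls P) (H : Type) [Group H] [Finite H]
    (X : Type) [Finite X] [MulAction H X] (hH : P H)
    (hf : ∀ h : H, (∀ x : X, h • x = x) → h = 1) (ht : MulAction.IsPretransitive H X)
    (hX : 2 ≤ Nat.card X) :
    ∃ (r a n' : ℕ) (K : Subgroup H) (_ : K.Normal), r.Prime ∧ 1 ≤ a ∧
      Nat.card X = n' * r ^ a ∧ (∀ m, PermDL P n' m → derivedSeries (H ⧸ K) m = ⊥) ∧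
      (∀ m, LinDL P r a m → derivedSeries K (m + 1) = ⊥) := by
  classical
  have : Nontrivial X := by
    rw [← Finite.one_lt_card_iff_nontrivial]
    omega
  obtain ⟨x0, y0, hxy⟩ := exists_pair_ne X
  have : Nontrivial H := by
    obtain ⟨h, hh⟩ := ht.exists_smul_eq x0 y0
    refine ⟨⟨h, 1, ?_⟩⟩
    rintro rfl
    rw [one_smul] at hh
    exact hxy hh
  obtain ⟨r, A, hr, hAn, hA0, hc, hexp, hmin⟩ := exists_min_normal H (hP.solv hH)
  have := Fact.mk hr
  obtain ⟨a, ha, hall, hcard⟩ := orbit_part hf ht r hr A hA0 hexp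
  refine ⟨r, a, Nat.card (MulAction.orbitRel.Quotient A X), Kor A X, inferInstance, hr, ha, hcard,
    fun m hm => Kor_dl hP A hH m hm, ?_⟩
  intro m hm
  rw [Subgroup.eq_bot_iff_forall]
  intro k hk
  apply Subtype.ext
  apply hf
  intro x
  let F : Subgroup (Kor A X) :=
    { carrier := {k | (k : H) • x = x}
      one_mem' := one_smul _ _
      mul_mem' := by
        intro g h hg hh
        change ((g : H) * (h : H)) • x = x
        rw [mul_smul, hh, hg]
      inv_mem' := by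
        intro g hg
        change ((g : H)⁻¹) • x = x
        rw [inv_smul_eq_iff]
        exact hg.symm }
  have hF : derivedSeries (Kor A X) (m + 1) ≤ F := by
    rw [derivedSeries_succ, Subgroup.commutator_le]
    intro g hg h hh
    obtain ⟨b, hb, hgb⟩ := one_orbit hP hH A hA0 r hc hexp hmin a m x (hall x) hm g hg
    obtain ⟨c, hcA, hhc⟩ := one_orbit hP hH A hA0 r hc hexp hmin a m x (hall x) hm h hh
    change ((g : H) * (h : H) * (g : H)⁻¹ * (h : H)⁻¹) • x = x
    let z : X := ((g : H)⁻¹ * (h : H)⁻¹) • x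
    have hz : z ∈ MulAction.orbit A x :=
      ((Kor A X).mul_mem ((Kor A X).inv_mem g.2) ((Kor A X).inv_mem h.2)) x
    have hz' : ∀ d ∈ A, d • z ∈ MulAction.orbit A x := by
      intro d hd
      rw [← MulAction.orbit_eq_iff.mpr hz]
      exact ⟨⟨d, hd⟩, rfl⟩
    have h1 : ((g : H) * (h : H)) • z = ((h : H) * (g : H)) • z := by
      have e1 : ((g : H) * (h : H)) • z = (b * c) • z := by
        rw [mul_smul, hhc z hz, hgb _ (hz' c hcA), mul_smul]
      have e2 : ((h : H) * (g : H)) • z = (c * b) • z := by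
        rw [mul_smul, hgb z hz, hhc _ (hz' b hb), mul_smul]
      rw [e1, e2, hc b hb c hcA]
    have h2 : ((h : H) * (g : H)) • z = x := by
      change ((h : H) * (g : H)) • ((g : H)⁻¹ * (h : H)⁻¹) • x = x
      rw [← mul_smul]
      have : (h : H) * (g : H) * ((g : H)⁻¹ * (h : H)⁻¹) = 1 := by group
      rw [this, one_smul]
    rw [mul_assoc, mul_smul]
    rw [h2] at h1
    exact h1
  exact hF hk

end Pool.Agent.Helper47.RS
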