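import Pool.Agent.Helper98.RS.A1

/-!
# RS: orbits of a minimal normal subgroup of a transitive permutation group
-/

set_option autoImplicit false

open scoped Pointwise

namespace Pool.Agent.Helper47.RS

open Pool.Agent.Helper98.RS

open scoped commutatorElement

theorem exists_min_normal (H : Type) [Group H] [Finite H] [Nontrivial H]
    (hs : Group.IsSolvable H) :
    ∃ (r : ℕ) (A : Subgroup H), r.Prime ∧ A.Normal ∧ A ≠ ⊥ ∧ (∀ x ∈ A, ∀ y ∈ A, x * y = y * x) ∧
      (∀ x ∈ A, x ^ r = 1) ∧ (∀ B : Subgroup H, B.Normal → B ≤ A → B = ⊥ ∨ B = A) := by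
  classical
  have hfin : (Set.univ : Set (Subgroup H)).Finite := Set.toFinite _
  have hne : ({A : Subgroup H | A.Normal ∧ A ≠ ⊥} : Set (Subgroup H)).Nonempty :=
    ⟨⊤, inferInstance, top_ne_bot⟩
  obtain ⟨A, hA⟩ := Set.Finite.exists_minimal (Set.toFinite {A : Subgroup H | A.Normal ∧ A ≠ ⊥}) hne
  obtain ⟨⟨hAn, hA0⟩, hAmin⟩ := hA
  have hmin : ∀ B : Subgroup H, B.Normal → B ≤ A → B = ⊥ ∨ B = A := by
    intro B hB hBA
    by_cases hB0 : B = ⊥
    · exact Or.inl hB0
    · exact Or.inr (le_antisymm hBA (hAmin ⟨hB, hB0⟩ hBA))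
  have hcomm : ⁅A, A⁆ = ⊥ := by
    rcases hmin ⁅A, A⁆ inferInstance (Subgroup.commutator_le_left A A) with h | h
    · exact h
    · exact absurd h (ne_of_lt (Group.IsSolvable.commutator_lt_of_ne_bot hA0))
  have hc : ∀ x ∈ A, ∀ y ∈ A, x * y = y * x := by
    intro x hx y hy
    have : ⁅x, y⁆ ∈ ⁅A, A⁆ := Subgroup.commutator_mem_commutator hx hy
    rw [hcomm, Subgroup.mem_bot] at this
    exact commutatorElement_eq_one_iff_mul_comm.mp this
  have hcard : Nat.card A ≠ 1 := by
    intro h
    exact hA0 (Subgroup.card_eq_one.mp h)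
  obtain ⟨r, hr, hrd⟩ := Nat.exists_prime_and_dvd hcard
  have := Fact.mk hr
  obtain ⟨z, hz⟩ := exists_prime_orderOf_dvd_card' (G := A) r hrd
  refine ⟨r, A, hr, hAn, hA0, hc, ?_, hmin⟩
  let B : Subgroup H :=
    { carrier := {x | x ∈ A ∧ x ^ r = 1}
      one_mem' := ⟨A.one_mem, one_pow _⟩
      mul_mem' := by
        rintro x y ⟨hx, hx1⟩ ⟨hy, hy1⟩
        refine ⟨A.mul_mem hx hy, ?_⟩
        have : Commute x y := hc x hx y hy
        rw [this.mul_pow, hx1, hy1, one_mul]
      inv_mem' := by
        rintro x ⟨hx, hx1⟩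
        exact ⟨A.inv_mem hx, by rw [inv_pow, hx1, inv_one]⟩ }
  have hBn : B.Normal := by
    constructor
    rintro x ⟨hx, hx1⟩ g
    refine ⟨hAn.conj_mem x hx g, ?_⟩
    rw [conj_pow, hx1]
    group
  have hBA : B ≤ A := fun x hx => hx.1
  rcases hmin B hBn hBA with h | h
  · exfalso
    have hz' : (z : H) ∈ B := by
      refine ⟨z.2, ?_⟩
      have := pow_orderOf_eq_one z
      rw [hz] at this
      have h2 := congrArg (Subtype.val) this
      simpa using h2
    rw [h, Subgroup.mem_bot] at hz'
    have : z = 1 := Subtype.ext hz'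
    rw [this, orderOf_one] at hz
    exact hr.one_lt.ne hz
  · intro x hx
    rw [← h] at hx
    exact hx.2

section Orbits

variable {H : Type} [Group H] {X : Type} [MulAction H X]

/-- The orbits of a normal subgroup are permuted. -/
theorem smul_orbit_iff (A : Subgroup H) [A.Normal] (h : H) (x y : X) :
    h • y ∈ MulAction.orbit A (h • x) ↔ y ∈ MulAction.orbit A x := by
  constructor
  · rintro ⟨⟨a, ha⟩, hax⟩
    refine ⟨⟨h⁻¹ * a * h, by simpa using Subgroup.Normal.conj_mem inferInstance a ha h⁻¹⟩, ?_⟩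
    change a • h • x = h • y at hax
    change (h⁻¹ * a * h) • x = y
    rw [mul_smul, mul_smul, hax, inv_smul_smul]
  · rintro ⟨⟨a, ha⟩, hax⟩
    refine ⟨⟨h * a * h⁻¹, Subgroup.Normal.conj_mem inferInstance a ha h⟩, ?_⟩
    change a • x = y at hax
    change (h * a * h⁻¹) • h • x = h • y
    rw [mul_smul, mul_smul, inv_smul_smul, hax]

/-- The kernel of the action on the set of orbits of a normal subgroup. -/
def Kor (A : Subgroup H) [A.Normal] (X : Type) [MulAction H X] : Subgroup H where
  carrier := {h | ∀ x : X, h • x ∈ MulAction.orbit A x}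
  one_mem' := fun x => by simp
  mul_mem' := by
    intro g h hg hh x
    have h1 := hh x
    have h2 := (smul_orbit_iff A g x (h • x)).mpr h1
    rw [mul_smul]
    rw [MulAction.orbit_eq_iff.mpr (hg x)] at h2
    exact h2
  inv_mem' := by
    intro g hg x
    have h1 := hg (g⁻¹ • x)
    rw [smul_inv_smul] at h1
    exact MulAction.mem_orbit_symm.mp h1

theorem mem_Kor (A : Subgroup H) [A.Normal] (h : H) :
    h ∈ Kor A X ↔ ∀ x : X, h • x ∈ MulAction.orbit A x := Iff.rfl

theorem le_Kor (A : Subgroup H) [A.Normal] : A ≤ Kor A X := by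
  intro a ha x
  exact ⟨⟨a, ha⟩, rfl⟩

/-- The action on the set of orbits. -/
@[instance_reducible] def orbAct (A : Subgroup H) [A.Normal] : MulAction H (MulAction.orbitRel.Quotient A X) where
  smul h := Quotient.map' (fun x => h • x) (by
    intro x y hxy
    exact (smul_orbit_iff A h y x).mpr hxy)
  one_smul := by
    intro q
    induction q using Quotient.inductionOn' with
    | h x =>
      change Quotient.mk'' ((1 : H) • x) = Quotient.mk'' x
      rw [one_smul]
  mul_smul := by
    intro g h q
    induction q using Quotient.inductionOn' with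
    | h x =>
      change Quotient.mk'' ((g * h) • x) = Quotient.mk'' (g • h • x)
      rw [mul_smul]

/-- The homomorphism to the permutations of the orbits. -/
def orbHom (A : Subgroup H) [A.Normal] (X : Type) [MulAction H X] :
    H →* Equiv.Perm (MulAction.orbitRel.Quotient A X) :=
  letI := orbAct (X := X) A
  MulAction.toPermHom H (MulAction.orbitRel.Quotient A X)

theorem orbHom_mk (A : Subgroup H) [A.Normal] (h : H) (x : X) :
    orbHom A X h (Quotient.mk'' x) = Quotient.mk'' (h • x) := rfl

theorem ker_orbHom (A : Subgroup H) [A.Normal] : (orbHom A X).ker = Kor A X := by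
  ext h
  rw [MonoidHom.mem_ker, mem_Kor]
  constructor
  · intro hh x
    have h1 : orbHom A X h (Quotient.mk'' x) = Quotient.mk'' x := by rw [hh]; rfl
    rw [orbHom_mk] at h1
    exact Quotient.exact' h1
  · intro hh
    ext q
    induction q using Quotient.inductionOn' with
    | h x =>
      rw [orbHom_mk]
      exact Quotient.sound' (hh x)

instance Kor_normal (A : Subgroup H) [A.Normal] : (Kor A X).Normal := by
  rw [← ker_orbHom]
  infer_instance

theorem Kor_dl {P : ∀ (H : Type) [Group H], Prop} (hP : Cls P) [Finite H] [Finite X]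
    (A : Subgroup H) [A.Normal] (hH : P H) (m : ℕ)
    (hm : PermDL P (Nat.card (MulAction.orbitRel.Quotient A X)) m) :
    derivedSeries (H ⧸ Kor A X) m = ⊥ := by
  classical
  have h1 : derivedSeries (orbHom A X).range m = ⊥ := by
    refine hm (orbHom A X).range (MulAction.orbitRel.Quotient A X)
      (hP.of_surj (orbHom A X).rangeRestrict (orbHom A X).rangeRestrict_surjective hH) ?_ le_rfl
    rintro ⟨f, hf⟩ hx
    apply Subtype.ext
    ext q
    exact hx q
  let e : H ⧸ Kor A X ≃* (orbHom A X).range :=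
    (QuotientGroup.quotientMulEquivOfEq (ker_orbHom A).symm).trans
      (QuotientGroup.quotientKerEquivRange (orbHom A X))
  exact dl_of_inj e.toMonoidHom e.injective m h1

theorem orbit_part [Finite H] [Finite X] (hf : ∀ h : H, (∀ x : X, h • x = x) → h = 1)
    (ht : MulAction.IsPretransitive H X) (r : ℕ) (hr : r.Prime) (A : Subgroup H) [A.Normal]
    (hA : A ≠ ⊥) (hexp : ∀ x ∈ A, x ^ r = 1) [Nonempty X] :
    ∃ a, 1 ≤ a ∧ (∀ x : X, Nat.card (MulAction.orbit A x) = r ^ a) ∧
      Nat.card X = Nat.card (MulAction.orbitRel.Quotient A X) * r ^ a := by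
  classical
  have := Fact.mk hr
  have hpg : IsPGroup r A := by
    intro x
    refine ⟨1, ?_⟩
    rw [pow_one]
    apply Subtype.ext
    simpa using hexp x x.2
  obtain ⟨x0⟩ := (inferInstance : Nonempty X)
  obtain ⟨a, ha⟩ := hpg.card_orbit x0
  have hall : ∀ x : X, Nat.card (MulAction.orbit A x) = r ^ a := by
    intro x
    obtain ⟨h, rfl⟩ := ht.exists_smul_eq x0 x
    rw [← ha]
    refine (Nat.card_congr ?_).symm
    exact
      { toFun := fun y => ⟨h • y.1, (smul_orbit_iff A h x0 y.1).mpr y.2⟩
        invFun := fun y => ⟨h⁻¹ • y.1, (smul_orbit_iff A h x0 (h⁻¹ • y.1)).mp (by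
          rw [smul_inv_smul]
          exact y.2)⟩
        left_inv := fun y => by apply Subtype.ext; simp
        right_inv := fun y => by apply Subtype.ext; simp }
  refine ⟨a, ?_, hall, ?_⟩
  · by_contra h0
    have h0 : a = 0 := by omega
    apply hA
    rw [Subgroup.eq_bot_iff_forall]
    intro b hb
    apply hf
    intro x
    have h1 := hall x
    rw [h0, pow_zero] at h1
    have h2 : Subsingleton (MulAction.orbit A x) := (Nat.card_eq_one_iff_unique.mp h1).1
    have h3 : (⟨b • x, ⟨⟨b, hb⟩, rfl⟩⟩ : MulAction.orbit A x) = ⟨x, MulAction.mem_orbit_self x⟩ :=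
      Subsingleton.elim _ _
    exact congrArg Subtype.val h3
  · let e := MulAction.selfEquivSigmaOrbits A X
    have e1 : ∀ q : MulAction.orbitRel.Quotient A X,
        Nonempty (MulAction.orbit A q.out ≃ Fin (r ^ a)) := by
      intro q
      rw [← hall q.out]
      exact ⟨Finite.equivFin _⟩
    let e2 : ∀ q : MulAction.orbitRel.Quotient A X, MulAction.orbit A q.out ≃ Fin (r ^ a) :=
      fun q => (e1 q).some
    let e3 : X ≃ (MulAction.orbitRel.Quotient A X) × Fin (r ^ a) :=
      e.trans ((Equiv.sigmaCongrRight e2).trans (Equiv.sigmaEquivProd _ _))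
    rw [Nat.card_congr e3, Nat.card_prod, Nat.card_fin]

end Orbits

end Pool.Agent.Helper47.RS
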